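import Pool.Agent.H546.TG
import Pool.Agent.H546.Lin2

set_option autoImplicit false

/-!
# `∑ C(-1/3,k) C(-1/6,k) / 2^k` and `∑ C(-2/3,k) C(-5/6,k) / 2^k` modulo `p²` (Q1)

The proof: modulo `p²` the sums are combinations of the Legendre polynomials `P_n(√2/2)`, `n = ⌊p/3⌋, ⌊2p/3⌋,
⌊4p/3⌋, ⌊5p/3⌋`; the elliptic curve `y² = x³ + (6A-27)x + (A²-18A+54)`, `A = 2 - √2`, with complex multiplication
by the order of discriminant `-24`, has isogenies of degrees `2` and `3` to its conjugate; over the Witt vectors of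
an algebraic closure of `ZMod p` a combination of degree `p` lifts the Frobenius, its sign is read off from the
point of order three, and comparing expansions modulo `p²` gives the values of the combinations.
-/

open Finset

namespace Pool.Agent.Results.MP_9178e4_nt.Half

/-- the generalised binomial coefficient `a (a-1) ⋯ (a-k+1) / k!` -/
def gb (a : ℚ) (k : ℕ) : ℚ := (∏ i ∈ range k, (a - i)) / (k.factorial : ℚ)

/-- the sum `S(p)` -/
def S (p : ℕ) : ℚ := ∑ k ∈ range p, gb (-1 / 3) k * gb (-1 / 6) k / 2 ^ k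

/-- the sum `T(p)` -/
def T (p : ℕ) : ℚ := ∑ k ∈ range p, gb (-2 / 3) k * gb (-5 / 6) k / 2 ^ k

/-- `ε_p = (2/p) 2^(((p/3)-1)/2)` -/
def eps (p : ℕ) : ℚ := jacobiSym 2 p * 2 ^ ((jacobiSym p 3 - 1) / 2)

/-- congruence modulo `p^m` of rational numbers: `(a - b) / p^m` has denominator prime to `p` -/
def Cong (p m : ℕ) (a b : ℚ) : Prop := p.Coprime ((a - b) / (p : ℚ) ^ m).den

open Pool.Agent.H546

theorem cong_trans {p m : ℕ} {a b c : ℚ} (h1 : Cong p m a c) (h2 : Cong p m b c) : Cong p m a b := by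
  unfold Cong at *
  have e : (a - b) / (p : ℚ) ^ m = (a - c) / (p : ℚ) ^ m - (b - c) / (p : ℚ) ^ m := by ring
  rw [e]
  exact cop_sub h1 h2

theorem S_eq (p : ℕ) : S p = ∑ n ∈ range p, Pool.Agent.H546.gb (-1 / 3) n * Pool.Agent.H546.gb (-1 / 6) n * (1 / 2 : ℚ) ^ n := by
  unfold S
  refine sum_congr rfl fun k _ => ?_
  rw [one_div_pow, mul_one_div]
  rfl

theorem T_eq (p : ℕ) : T p = ∑ n ∈ range p, Pool.Agent.H546.gb (-2 / 3) n * Pool.Agent.H546.gb (-5 / 6) n * (1 / 2 : ℚ) ^ n := by
  unfold T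
  refine sum_congr rfl fun k _ => ?_
  rw [one_div_pow, mul_one_div]
  rfl

theorem half_K {p : ℕ} [hp : Fact p.Prime] [CharZero (KO p)] {v : WO p} (hv : 2 * v = 1) :
    ((1 / 2 : ℚ) : KO p) = algebraMap (WO p) (KO p) v := by
  have h := congrArg (algebraMap (WO p) (KO p)) hv
  rw [map_mul, map_ofNat, map_one] at h
  have h2 : (2 : KO p) ≠ 0 := by norm_num
  push_cast
  rw [div_eq_iff h2]
  linear_combination -h

/-- the sum of products of binomial coefficients -/
def B (p : ℕ) : ℚ := ∑ k ∈ range ((p - 5) / 6 + 1), (((p - 2) / 3).choose k : ℚ) * (((p - 5) / 6).choose k : ℚ) / 2 ^ k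

theorem B_eq {p : ℕ} (h5 : p % 6 = 5) : B p =
    ∑ n ∈ range p, Pool.Agent.H546.gb (-(-(((p - 2) / 3 : ℕ) : ℚ))) n *
      Pool.Agent.H546.gb (-(-(((p - 5) / 6 : ℕ) : ℚ))) n * (1 / 2 : ℚ) ^ n := by
  unfold B
  rw [← sum_subset (s₁ := range ((p - 5) / 6 + 1)) (s₂ := range p)]
  · refine sum_congr rfl fun k _ => ?_
    rw [neg_neg, neg_neg, gb_nat, gb_nat, one_div_pow, mul_one_div]
  · intro k hk
    rw [mem_range] at hk ⊢
    omega
  · intro k _ hk
    rw [mem_range, not_lt] at hk
    rw [neg_neg, neg_neg, gb_nat ((p - 5) / 6), Nat.choose_eq_zero_of_lt (by omega)]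
    simp

/-- the transfer for the two ordinary cases -/
theorem main (p : ℕ) [hp : Fact p.Prime] (h11 : 10 < p) (h17 : p ≠ 17) (h23 : p ≠ 23) (x y : ℤ)
    (h3 : ¬ (3 : ℤ) ∣ x) (hpx : ¬ (p : ℤ) ∣ x) :
    (p % 3 = 1 → legendreSym p 2 = 1 → (p : ℤ) = x ^ 2 + 6 * y ^ 2 →
      Cong p 2 (S p) (jacobiSym x 3 * (2 * x - p / (2 * x))) ∧
      Cong p 2 (1 * T p) (jacobiSym x 3 * (2 * x - p / (2 * x)))) ∧
    (p % 3 = 2 → legendreSym p 2 = -1 → (p : ℤ) = 2 * x ^ 2 + 3 * y ^ 2 →
      Cong p 2 (S p) (jacobiSym x 3 * (2 * x - p / (4 * x))) ∧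
      Cong p 2 (-1 / 2 * T p) (jacobiSym x 3 * (2 * x - p / (4 * x))) ∧
      Cong p 1 (x * jacobiSym x 3) (-1 / 4 * B p)) := by
  have hp2 : p ≠ 2 := by omega
  have hq := SW_q p
  have : CharZero (KO p) := charZero_K (SW p) hq
  have nd : ∀ {n : ℕ} {l : List ℕ}, (∀ q ∈ l, q.Prime) → l.prod = n → (∀ q ∈ l, p ≠ q) → ¬ (p : ℤ) ∣ (n : ℤ) :=
    fun a b c => ndvd_of_primes p a b c
  have n2 : ¬ (p : ℤ) ∣ 2 := by
    have := nd (n := 2) (l := [2]) (by simp; norm_num) (by norm_num) (by simp; omega)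
    exact_mod_cast this
  have n4 : ¬ (p : ℤ) ∣ 4 := by
    have := nd (n := 4) (l := [2, 2]) (by simp; norm_num) (by norm_num) (by simp; omega)
    exact_mod_cast this
  obtain ⟨σ, hσ⟩ := wo_isqrt p hp2 n2
  obtain ⟨v, i6, ρ, iv, hv, h6, hρ, hiv⟩ := wo_data p hp2 (by omega)
  obtain ⟨hε, h3x⟩ := jac3 x h3
  obtain ⟨m1, m2⟩ := tg_main (SW p) hq h11 h17 h23 (by exact_mod_cast hσ) hρ hv hiv h6 x y _ hε h3x
  obtain ⟨hS, hT⟩ := S_K h6 hiv (half_K hv)
  rw [← S_eq] at hS
  rw [← T_eq] at hT
  have hpz : Prime (p : ℤ) := Nat.prime_iff_prime_int.mp hp.out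
  have hX : ¬ (p : ℤ) ∣ 2 * x := fun h => (hpz.dvd_or_dvd h).elim n2 hpx
  have hX4 : ¬ (p : ℤ) ∣ 4 * x := fun h => (hpz.dvd_or_dvd h).elim n4 hpx
  have hx0 : (x : ℚ) ≠ 0 := by
    intro h
    have : x = 0 := by exact_mod_cast h
    exact hpx (by rw [this]; exact dvd_zero _)
  have hodd : p % 2 = 1 := by
    rcases hp.out.eq_two_or_odd with h | h
    · exact absurd h hp2
    · exact h
  refine ⟨fun a b c => ?_, fun a b c => ?_⟩
  · obtain ⟨g1, g2⟩ := m1 a b c
    refine ⟨?_, ?_⟩
    · refine fin_int (SW p) hq hS hX g1 ?_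
      push_cast
      field_simp
      ring
    · rw [one_mul]
      refine fin_int (SW p) hq hT hX g2 ?_
      push_cast
      field_simp
      ring
  · obtain ⟨g1, g2⟩ := m2 a b c
    have hvK := half_K hv
    have hT' : ((-1 / 2 * T p : ℚ) : KO p) = algebraMap (WO p) (KO p) (-v * hyp iv p (4 * i6) (5 * i6) v) := by
      rw [map_mul, map_neg, ← hT, ← hvK]; push_cast; ring
    refine ⟨?_, ?_, ?_⟩
    · refine fin_int (SW p) hq hS hX4 g1 ?_
      push_cast
      field_simp
      ring
    · refine fin_int (SW p) hq hT' hX4 g2 ?_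
      push_cast
      field_simp
      ring
    · -- the consequence
      unfold Cong
      rw [pow_one]
      have hB := sum_K (K := KO p) (p := p) hiv (a := -(((p - 2) / 3 : ℕ) : ℚ)) (b := -(((p - 5) / 6 : ℕ) : ℚ))
        (T := 1 / 2) (a' := -(((p - 2) / 3 : ℕ) : WO p)) (b' := -(((p - 5) / 6 : ℕ) : WO p)) (t := v)
        (by rw [map_neg, map_natCast]; push_cast; rfl) (by rw [map_neg, map_natCast]; push_cast; rfl) hvK
      rw [← B_eq (by omega)] at hB
      set BO := hyp iv p (-(((p - 2) / 3 : ℕ) : WO p)) (-(((p - 5) / 6 : ℕ) : WO p)) v with hBO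
      have hr : (SW p).red BO = (SW p).red (hyp iv p (4 * i6) (5 * i6) v) := by
        rw [hBO, hyp_map, hyp_map]
        have e6 : 6 * (SW p).red i6 = 1 := by
          have := congrArg (SW p).red h6
          rwa [map_mul, map_ofNat, map_one] at this
        have hpk : (p : kb p) = 0 := CharP.cast_eq_zero _ _
        have f1 : 3 * (((p - 2) / 3 : ℕ) : kb p) = -2 := by
          have h : 3 * ((p - 2) / 3) + 2 = p := by omega
          have h' := congrArg (Nat.cast : ℕ → kb p) h
          push_cast at h'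
          linear_combination h' + hpk
        have f2 : 6 * (((p - 5) / 6 : ℕ) : kb p) = -5 := by
          have h : 6 * ((p - 5) / 6) + 5 = p := by omega
          have h' := congrArg (Nat.cast : ℕ → kb p) h
          push_cast at h'
          linear_combination h' + hpk
        congr 1
        · rw [map_neg, map_natCast, map_mul, map_ofNat]
          linear_combination (-(((p - 2) / 3 : ℕ) : kb p)) * (-1 : kb p) * e6 * (1 : kb p) +
            (-2 * (SW p).red i6) * f1 + 0 * e6
        · rw [map_neg, map_natCast, map_mul, map_ofNat]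
          linear_combination (((p - 5) / 6 : ℕ) : kb p) * e6 - (SW p).red i6 * f2
      have hred : (SW p).red (((x * jacobiSym x 3 : ℤ) : WO p) + v * v * BO) = 0 := by
        obtain ⟨o, ho⟩ := g2
        have h1 := congrArg (SW p).red ho
        have hpk : (SW p).red (p : WO p) = 0 := by rw [map_natCast]; exact CharP.cast_eq_zero _ _
        push_cast at h1
        simp only [map_sub, map_mul, map_neg, map_pow, map_intCast, map_ofNat, hpk] at h1
        rw [map_add, map_intCast, map_mul, map_mul, hr]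
        have hv' : 2 * (SW p).red v = 1 := by
          have := congrArg (SW p).red hv
          rwa [map_mul, map_ofNat, map_one] at this
        have hx' : (x : kb p) ≠ 0 := by
          intro h0
          exact hpx ((CharP.intCast_eq_zero_iff (kb p) p x).mp h0)
        have h2' : (2 : kb p) ≠ 0 := by
          have := (SW p).two_ne (p := p) hp2
          rwa [map_ofNat] at this
        have h8 : (2 : kb p) ^ 3 * x ≠ 0 := mul_ne_zero (pow_ne_zero 3 h2') hx'
        apply mul_left_cancel₀ h8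
        push_cast
        linear_combination (-1 : kb p) * h1 +
          (4 * (x : kb p) * (SW p).red (hyp iv p (4 * i6) (5 * i6) v) * (SW p).red v) * hv'
      have := fin_zero (SW p) hq (SQ := (x * jacobiSym x 3 : ℤ) + 1 / 2 * (1 / 2) * B p)
        (SO := (((x * jacobiSym x 3 : ℤ) : WO p) + v * v * BO)) (by
          rw [map_add, map_intCast, map_mul, map_mul, ← hB, ← hvK]; push_cast; ring) hred
      convert this using 3
      push_cast
      ring

/-- the transfer for the supersingular case -/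
theorem main0 (p : ℕ) [hp : Fact p.Prime] (h3 : 3 < p) (h1 : p % 3 = 1) (h2 : legendreSym p 2 = -1) :
    Cong p 1 (S p) 0 ∧ Cong p 1 (1 * T p) 0 := by
  have hp2 : p ≠ 2 := by omega
  have hq := SW_q p
  have : CharZero (KO p) := charZero_K (SW p) hq
  have nd : ∀ {n : ℕ} {l : List ℕ}, (∀ q ∈ l, q.Prime) → l.prod = n → (∀ q ∈ l, p ≠ q) → ¬ (p : ℤ) ∣ (n : ℤ) :=
    fun a b c => ndvd_of_primes p a b c
  have n2 : ¬ (p : ℤ) ∣ 2 := by
    have := nd (n := 2) (l := [2]) (by simp; norm_num) (by norm_num) (by simp; omega)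
    exact_mod_cast this
  obtain ⟨σ, hσ⟩ := wo_isqrt p hp2 n2
  obtain ⟨v, i6, ρ, iv, hv, h6, hρ, hiv⟩ := wo_data p hp2 (by omega)
  obtain ⟨g1, g2⟩ := tg_zero (SW p) hq h3 (by exact_mod_cast hσ) hv hiv h6 h1 h2
  obtain ⟨hS, hT⟩ := S_K h6 hiv (half_K hv)
  rw [← S_eq] at hS
  rw [← T_eq] at hT
  unfold Cong
  rw [pow_one, sub_zero, sub_zero, one_mul]
  exact ⟨fin_zero (SW p) hq hS g1, fin_zero (SW p) hq hT g2⟩

theorem s5 : S 5 = 125188739 / 120932352 ∧ T 5 = 87553111 / 60466176 ∧ B 5 = 1 := by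
  refine ⟨?_, ?_, ?_⟩
  · norm_num [S, gb, sum_range_succ, prod_range_succ, Nat.factorial]
  · norm_num [T, gb, sum_range_succ, prod_range_succ, Nat.factorial]
  · norm_num [B, sum_range_succ]

theorem s7 : S 7 = 91284618191 / 88159684608 ∧ T 7 = 2060600388911 / 1410554953728 := by
  refine ⟨?_, ?_⟩
  · norm_num [S, gb, sum_range_succ, prod_range_succ, Nat.factorial]
  · norm_num [T, gb, sum_range_succ, prod_range_succ, Nat.factorial]

/-- **The full answer to Q1.** -/
theorem result (p : ℕ) (hp : p.Prime) (h3 : 3 < p) :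
    (∀ x y : ℤ, (p : ℤ) = x ^ 2 + 6 * y ^ 2 →
      Cong p 2 (S p) (jacobiSym x 3 * (2 * x - p / (2 * x))) ∧
      Cong p 2 (eps p * T p) (jacobiSym x 3 * (2 * x - p / (2 * x))) ∧ Cong p 2 (S p) (eps p * T p)) ∧
    (∀ x y : ℤ, (p : ℤ) = 2 * x ^ 2 + 3 * y ^ 2 →
      (Cong p 2 (S p) (jacobiSym x 3 * (2 * x - p / (4 * x))) ∧
      Cong p 2 (eps p * T p) (jacobiSym x 3 * (2 * x - p / (4 * x))) ∧ Cong p 2 (S p) (eps p * T p)) ∧
      Cong p 1 (x * jacobiSym x 3) (-1 / 4 * ∑ k ∈ range ((p - 5) / 6 + 1),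
        (((p - 2) / 3).choose k : ℚ) * (((p - 5) / 6).choose k : ℚ) / 2 ^ k)) ∧
    (p % 24 = 13 ∨ p % 24 = 19 →
      Cong p 1 (S p) 0 ∧ Cong p 1 (eps p * T p) 0 ∧ Cong p 1 (S p) (eps p * T p)) := by
  have : Fact p.Prime := ⟨hp⟩
  have np3 : p % 3 ≠ 0 := by
    intro h0
    have := (Nat.prime_dvd_prime_iff_eq Nat.prime_three hp).mp (Nat.dvd_of_mod_eq_zero h0)
    omega
  have hodd : p % 2 = 1 := by
    rcases hp.eq_two_or_odd with h | h
    · omega
    · exact h
  have hl2 : jacobiSym 2 p = legendreSym p 2 := (jacobiSym.legendreSym.to_jacobiSym p 2).symm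
  have h4 : p ≠ 4 := by rintro rfl; exact absurd hp (by norm_num)
  have hsmall : ¬ 10 < p → p = 5 ∨ p = 7 := by
    intro h
    have h6 : p ≠ 6 := by rintro rfl; exact absurd hp (by norm_num)
    have h8 : p ≠ 8 := by rintro rfl; exact absurd hp (by norm_num)
    have h9 : p ≠ 9 := by rintro rfl; exact absurd hp (by norm_num)
    have h10 : p ≠ 10 := by rintro rfl; exact absurd hp (by norm_num)
    omega
  refine ⟨fun x y hxy => ?_, fun x y hxy => ?_, fun hc => ?_⟩
  · have hx0 : x ≠ 0 := by rintro rfl; omega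
    have h3x : ¬ (3 : ℤ) ∣ x := by
      rintro ⟨a, rfl⟩
      apply np3
      have : (p : ℤ) = 3 * (3 * a ^ 2 + 2 * y ^ 2) := by rw [hxy]; ring
      omega
    have hpx := form_var hp (a := 1) (b := 6) (by norm_num) (by norm_num) (y := y) hx0 (by rw [hxy]; ring)
    have hx3 := sq_mod3 x h3x
    have hx8 := sq_mod8 x
    have hy8 := sq_mod8 y
    have hm3 : p % 3 = 1 := by omega
    have hm8 : p % 8 = 1 ∨ p % 8 = 7 := by omega
    have hj2 : jacobiSym 2 p = 1 := by rw [jac2_p (by omega), if_pos hm8]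
    have hj3 : jacobiSym p 3 = 1 := by
      rcases jac3_p (p := p) (by omega) with h | h
      · exact h.2
      · omega
    have he : eps p = 1 := by rw [eps, hj2, hj3]; norm_num
    have key : Cong p 2 (S p) (jacobiSym x 3 * (2 * x - p / (2 * x))) ∧
        Cong p 2 (1 * T p) (jacobiSym x 3 * (2 * x - p / (2 * x))) := by
      by_cases h11 : 10 < p
      · exact (main p h11 (by omega) (by omega) x y h3x hpx).1 hm3 (by rw [← hl2]; exact hj2) hxy
      · have h7 : p = 7 := by
          rcases hsmall h11 with h | h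
          · omega
          · exact h
        subst h7
        have hy1 : y ^ 2 ≤ 1 := by
          have := sq_nonneg x
          push_cast at hxy; omega
        have hy0 : y ^ 2 ≠ 0 := by
          intro h; rw [h] at hxy; push_cast at hxy; omega
        have hx1 : x ^ 2 = 1 := by
          have := sq_nonneg y
          push_cast at hxy; omega
        have hE : ((jacobiSym x 3 : ℤ) : ℚ) * (2 * x - (7 : ℕ) / (2 * x)) = -3 / 2 := by
          rcases sq_eq_sq_iff_eq_or_eq_neg.mp (show x ^ 2 = 1 ^ 2 by rw [hx1]; norm_num) with h | h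
          · subst h
            have : jacobiSym 1 3 = 1 := by
              obtain ⟨h1, h2⟩ := jac3 1 (by norm_num)
              omega
            rw [this]; norm_num
          · subst h
            have : jacobiSym (-1) 3 = -1 := by
              obtain ⟨h1, h2⟩ := jac3 (-1) (by norm_num)
              omega
            rw [this]; norm_num
        rw [hE]
        refine ⟨cop_of_eq (n := 4561717247) (d := 88159684608) ?_ (by norm_num),
          cop_of_eq (n := 85233322847) (d := 1410554953728) ?_ (by norm_num)⟩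
        · rw [s7.1]; norm_num
        · rw [s7.2]; norm_num
    rw [he]
    exact ⟨key.1, key.2, cong_trans key.1 key.2⟩
  · have hx0 : x ≠ 0 := by rintro rfl; omega
    have h3x : ¬ (3 : ℤ) ∣ x := by
      rintro ⟨a, rfl⟩
      apply np3
      have : (p : ℤ) = 3 * (6 * a ^ 2 + y ^ 2) := by rw [hxy]; ring
      omega
    have hpx := form_var hp (a := 2) (b := 3) (by norm_num) (by norm_num) hx0 hxy
    have hx3 := sq_mod3 x h3x
    have hx8 := sq_mod8 x
    have hy8 := sq_mod8 y
    have hm3 : p % 3 = 2 := by omega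
    have hm8 : ¬ (p % 8 = 1 ∨ p % 8 = 7) := by omega
    have hj2 : jacobiSym 2 p = -1 := by rw [jac2_p (by omega), if_neg hm8]
    have hj3 : jacobiSym p 3 = -1 := by
      rcases jac3_p (p := p) (by omega) with h | h
      · omega
      · exact h.2
    have he : eps p = -1 / 2 := by rw [eps, hj2, hj3]; norm_num
    have key : Cong p 2 (S p) (jacobiSym x 3 * (2 * x - p / (4 * x))) ∧
        Cong p 2 (-1 / 2 * T p) (jacobiSym x 3 * (2 * x - p / (4 * x))) ∧
        Cong p 1 (x * jacobiSym x 3) (-1 / 4 * B p) := by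
      by_cases h11 : 10 < p
      · exact (main p h11 (by omega) (by omega) x y h3x hpx).2 hm3 (by rw [← hl2]; exact hj2) hxy
      · have h5 : p = 5 := by
          rcases hsmall h11 with h | h
          · exact h
          · omega
        subst h5
        have hx1' : x ^ 2 ≤ 2 := by
          have := sq_nonneg y
          push_cast at hxy; omega
        have hx1 : x ^ 2 = 1 := by
          have := sq_nonneg x
          omega
        have hE : ((jacobiSym x 3 : ℤ) : ℚ) * (2 * x - (5 : ℕ) / (4 * x)) = 3 / 4 ∧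
            (x : ℚ) * ((jacobiSym x 3 : ℤ) : ℚ) = 1 := by
          rcases sq_eq_sq_iff_eq_or_eq_neg.mp (show x ^ 2 = 1 ^ 2 by rw [hx1]; norm_num) with h | h
          · subst h
            have : jacobiSym 1 3 = 1 := by
              obtain ⟨h1, h2⟩ := jac3 1 (by norm_num)
              omega
            rw [this]; norm_num
          · subst h
            have : jacobiSym (-1) 3 = -1 := by
              obtain ⟨h1, h2⟩ := jac3 (-1) (by norm_num)
              omega
            rw [this]; norm_num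
        rw [hE.1, hE.2]
        refine ⟨cop_of_eq (n := 1379579) (d := 120932352) ?_ (by norm_num),
          cop_of_eq (n := -7130095) (d := 120932352) ?_ (by norm_num),
          cop_of_eq (n := 1) (d := 4) ?_ (by norm_num)⟩
        · rw [s5.1]; norm_num
        · rw [s5.2.1]; norm_num
        · rw [s5.2.2]; norm_num
    rw [he]
    exact ⟨⟨key.1, key.2.1, cong_trans key.1 key.2.1⟩, key.2.2⟩
  · have hm3 : p % 3 = 1 := by omega
    have hm8 : ¬ (p % 8 = 1 ∨ p % 8 = 7) := by omega
    have hj2 : jacobiSym 2 p = -1 := by rw [jac2_p (by omega), if_neg hm8]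
    have hj3 : jacobiSym p 3 = 1 := by
      rcases jac3_p (p := p) (by omega) with h | h
      · exact h.2
      · omega
    have he : eps p = -1 := by rw [eps, hj2, hj3]; norm_num
    obtain ⟨g1, g2⟩ := main0 p h3 hm3 (by rw [← hl2]; exact hj2)
    have g3 : Cong p 1 (-1 * T p) 0 := by
      unfold Cong at g2 ⊢
      have e : (-1 * T p - 0) / (p : ℚ) ^ 1 = 0 - (1 * T p - 0) / (p : ℚ) ^ 1 := by ring
      rw [e]
      exact cop_sub (by simp) g2
    rw [he]
    exact ⟨g1, g3, cong_trans g1 g3⟩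

end Pool.Agent.Results.MP_9178e4_nt.Half
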